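import Pool.Agent.Q97.UM.Stm7
import Pool.Agent.Q222.UM.ED

/-!
# Project UM3 (helper97), job ED2 (helper153): second moment of the zero counts
-/

set_option autoImplicit false

namespace Pool.Agent.Q153.UM

open Filter Topology MeasureTheory Set
open Pool.Agent.Q97.UM Pool.Agent.Q210.UM Pool.Agent.Q222.UM

/-- the layer cake formula for the second moment -/
lemma cake2 (hZ : S_ZF2) {r T' : ℝ} (hT' : 0 < T') {C c : ℝ} (hC : 0 ≤ C) (hc : 0 < c)
    {V : ℝ → ℝ} (hV : Continuous V) (hV0 : ∀ s, 0 ≤ V s) {Nb : ℝ} (hNb : 0 ≤ Nb)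
    (K₀ : ℕ) (hK₀ : ∀ s, T' ≤ s → s ≤ 2 * T' → nz s r ≤ K₀)
    (h : ∀ K : ℕ, ∫ t in T'..(2 * T'), ({t : ℝ | K ≤ nz t r}).indicator (1 : ℝ → ℝ) t * V t ≤
      C * Real.exp (-(c * K)) * T' * Nb) :
    ∫ t in T'..(2 * T'), (nz t r : ℝ) ^ 2 * V t ≤ 8 * (C / c ^ 2) * T' * Nb := by
  classical
  have hm : ∀ K : ℕ, MeasurableSet {t : ℝ | K ≤ nz t r} := hZ.2.1 r
  have e1 : ∀ t : ℝ, T' ≤ t → t ≤ 2 * T' → (nz t r : ℝ) ^ 2 =
      ∑ K ∈ Finset.range K₀, (2 * (K : ℝ) + 1) * ({t : ℝ | K + 1 ≤ nz t r}).indicator 1 t := by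
    intro t h1 h2
    have h3 := hK₀ t h1 h2
    have h4 : ∀ K ∈ Finset.range K₀, (2 * (K : ℝ) + 1) *
        ({t : ℝ | K + 1 ≤ nz t r}).indicator (1 : ℝ → ℝ) t =
        if K < nz t r then (2 * (K : ℝ) + 1) else 0 := by
      intro K _
      by_cases hK : K + 1 ≤ nz t r
      · rw [indicator_of_mem (by exact hK), if_pos (by omega), Pi.one_apply, mul_one]
      · rw [indicator_of_notMem (by exact hK), if_neg (by omega), mul_zero]
    have h5 : ∀ n : ℕ, ∑ K ∈ Finset.range n, (2 * (K : ℝ) + 1) = (n : ℝ) ^ 2 := by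
      intro n
      induction n with
      | zero => simp
      | succ n ih =>
        rw [Finset.sum_range_succ, ih]
        push_cast
        ring
    rw [Finset.sum_congr rfl h4, ← Finset.sum_filter]
    have h6 : (Finset.range K₀).filter (fun K => K < nz t r) = Finset.range (nz t r) := by
      ext K
      simp only [Finset.mem_filter, Finset.mem_range]
      omega
    rw [h6, h5]
  have hi : ∀ K ∈ Finset.range K₀, IntervalIntegrable
      (fun t => ({t : ℝ | K + 1 ≤ nz t r}).indicator (1 : ℝ → ℝ) t * V t) volume T' (2 * T') := by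
    intro K _
    refine gint (M := 1) (measurable_one.indicator (hm (K + 1))) (by linarith)
      (fun s => indicator_nonneg (fun _ _ => zero_le_one) s)
      (fun s _ _ => indicator_le_self' (fun _ _ => zero_le_one) s) hV hV0
  have e2 : ∫ t in T'..(2 * T'), (nz t r : ℝ) ^ 2 * V t =
      ∑ K ∈ Finset.range K₀, (2 * (K : ℝ) + 1) * ∫ t in T'..(2 * T'),
        ({t : ℝ | K + 1 ≤ nz t r}).indicator (1 : ℝ → ℝ) t * V t := by
    have h7 : ∀ K ∈ Finset.range K₀, (2 * (K : ℝ) + 1) * ∫ t in T'..(2 * T'),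
        ({t : ℝ | K + 1 ≤ nz t r}).indicator (1 : ℝ → ℝ) t * V t =
        ∫ t in T'..(2 * T'), (2 * (K : ℝ) + 1) *
          (({t : ℝ | K + 1 ≤ nz t r}).indicator (1 : ℝ → ℝ) t * V t) := fun K _ =>
      (intervalIntegral.integral_const_mul _ _).symm
    rw [Finset.sum_congr rfl h7,
      ← intervalIntegral.integral_finsetSum fun K hK => (hi K hK).const_mul _]
    refine intervalIntegral.integral_congr fun t ht => ?_
    rw [uIcc_of_le (by linarith)] at ht
    change (nz t r : ℝ) ^ 2 * V t = ∑ K ∈ Finset.range K₀, (2 * (K : ℝ) + 1) *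
      (({t : ℝ | K + 1 ≤ nz t r}).indicator (1 : ℝ → ℝ) t * V t)
    rw [e1 t ht.1 ht.2, Finset.sum_mul]
    exact Finset.sum_congr rfl fun K _ => by ring
  have h5 : ∀ K ∈ Finset.range K₀, (2 * (K : ℝ) + 1) * ∫ t in T'..(2 * T'),
      ({t : ℝ | K + 1 ≤ nz t r}).indicator (1 : ℝ → ℝ) t * V t ≤
      4 / c * (C * T' * Nb) * (Real.exp (-(c / 2)) * Real.exp (-(c / 2)) ^ K) := by
    intro K _
    have h6 := h (K + 1)
    have h7 : (2 * (K : ℝ) + 1) ≤ 4 / c * Real.exp (c / 2 * (K + 1)) := by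
      have h8 := Real.add_one_le_exp (c / 2 * ((K : ℝ) + 1))
      have h9 : 4 / c * (c / 2 * ((K : ℝ) + 1)) = 2 * ((K : ℝ) + 1) := by
        field_simp
        ring
      have h10 : 4 / c * (c / 2 * ((K : ℝ) + 1)) ≤ 4 / c * Real.exp (c / 2 * (K + 1)) :=
        mul_le_mul_of_nonneg_left (by linarith) (by positivity)
      linarith
    have h8 : (2 * (K : ℝ) + 1) * ∫ t in T'..(2 * T'),
        ({t : ℝ | K + 1 ≤ nz t r}).indicator (1 : ℝ → ℝ) t * V t ≤
        (2 * (K : ℝ) + 1) * (C * Real.exp (-(c * ((K + 1 : ℕ) : ℝ))) * T' * Nb) :=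
      mul_le_mul_of_nonneg_left h6 (by positivity)
    refine h8.trans ?_
    have h9 : (2 * (K : ℝ) + 1) * (C * Real.exp (-(c * ((K + 1 : ℕ) : ℝ))) * T' * Nb) ≤
        4 / c * Real.exp (c / 2 * (K + 1)) * (C * Real.exp (-(c * ((K + 1 : ℕ) : ℝ))) * T' * Nb) :=
      mul_le_mul_of_nonneg_right h7 (by positivity)
    refine h9.trans (le_of_eq ?_)
    rw [← pow_succ', ← Real.exp_nat_mul]
    have h10 : Real.exp (c / 2 * ((K : ℝ) + 1)) * Real.exp (-(c * ((K + 1 : ℕ) : ℝ))) =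
        Real.exp (((K + 1 : ℕ) : ℝ) * -(c / 2)) := by
      rw [← Real.exp_add]
      congr 1
      push_cast
      ring
    calc 4 / c * Real.exp (c / 2 * (K + 1)) * (C * Real.exp (-(c * ((K + 1 : ℕ) : ℝ))) * T' * Nb) =
        4 / c * (C * T' * Nb) * (Real.exp (c / 2 * ((K : ℝ) + 1)) *
          Real.exp (-(c * ((K + 1 : ℕ) : ℝ)))) := by ring
      _ = _ := by rw [h10]
  rw [e2]
  refine (Finset.sum_le_sum h5).trans ?_
  rw [← Finset.mul_sum, ← Finset.mul_sum]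
  have hc2 : 0 < c / 2 := by linarith
  have h6 : Real.exp (-(c / 2)) * ∑ K ∈ Finset.range K₀, Real.exp (-(c / 2)) ^ K ≤ 1 / (c / 2) := by
    have h7 : Real.exp (-(c / 2)) < 1 := by
      rw [Real.exp_lt_one_iff]
      linarith
    have h8 : 0 < Real.exp (-(c / 2)) := Real.exp_pos _
    have h9 : ∑ K ∈ Finset.range K₀, Real.exp (-(c / 2)) ^ K ≤ (1 - Real.exp (-(c / 2)))⁻¹ := by
      rw [← tsum_geometric_of_lt_one h8.le h7]
      exact (summable_geometric_of_lt_one h8.le h7).sum_le_tsum _ (fun i _ => by positivity)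
    calc Real.exp (-(c / 2)) * ∑ K ∈ Finset.range K₀, Real.exp (-(c / 2)) ^ K
          ≤ Real.exp (-(c / 2)) * (1 - Real.exp (-(c / 2)))⁻¹ := mul_le_mul_of_nonneg_left h9 h8.le
      _ ≤ 1 / (c / 2) := by
          rw [← div_eq_mul_inv, div_le_div_iff₀ (by linarith) hc2]
          have h10 : c / 2 + 1 ≤ Real.exp (c / 2) := Real.add_one_le_exp (c / 2)
          have h11 : Real.exp (-(c / 2)) * Real.exp (c / 2) = 1 := by
            rw [← Real.exp_add]
            simp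
          nlinarith
  calc 4 / c * (C * T' * Nb) * (Real.exp (-(c / 2)) * ∑ K ∈ Finset.range K₀,
          Real.exp (-(c / 2)) ^ K)
        ≤ 4 / c * (C * T' * Nb) * (1 / (c / 2)) := mul_le_mul_of_nonneg_left h6 (by positivity)
    _ = 8 * (C / c ^ 2) * T' * Nb := by
        field_simp
        ring

/-- **ED2.** -/
theorem t_ED2 : J_ED2 := by
  intro _ hD hZ θ c C hθ0 hθ1 hc hC hTB
  unfold TailB at hTB
  refine ⟨768 * (C / c ^ 2), by positivity, ?_⟩
  have hT1 := (tendsto_id.atTop_div_const (two_pos : (0 : ℝ) < 2)).eventually hTB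
  have hT2 := (tendsto_id.const_mul_atTop (two_pos : (0 : ℝ) < 2)).eventually hTB
  unfold SDB
  filter_upwards [hT1, hTB, hT2, eventually_ge_atTop (Real.exp 4)] with T h1 h2 h3 hT N hN b X hX
  simp only [id] at h1 h3
  have hT4 : (5 : ℝ) ≤ T := by
    have := Real.add_one_le_exp (4 : ℝ)
    linarith
  have hT0 : 0 < T := by linarith
  have hL : 4 ≤ Real.log T := by
    rw [Real.le_log_iff_exp_le hT0]
    exact hT
  have hlog2 : Real.log 2 ≤ 1 := by
    have := Real.log_two_lt_d9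
    linarith
  have hlog2p : 0 < Real.log 2 := Real.log_pos one_lt_two
  have el1 : Real.log (T / 2) = Real.log T - Real.log 2 := Real.log_div hT0.ne' two_ne_zero
  have el2 : Real.log (2 * T) = Real.log 2 + Real.log T := Real.log_mul two_ne_zero hT0.ne'
  have el3 : Real.log (4 * T) = 2 * Real.log 2 + Real.log T := by
    rw [Real.log_mul four_ne_zero hT0.ne', show (4 : ℝ) = 2 ^ 2 by norm_num, Real.log_pow]
    push_cast
    ring
  set r : ℝ := 1 / Real.log (4 * T) with hr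
  set w : ℝ := 1 / Real.log T with hw
  have hL4 : 4 ≤ Real.log (4 * T) := by linarith
  have hr0 : 0 < r := by positivity
  have hw0 : 0 ≤ w := by positivity
  have hrq : r ≤ 1 / 4 := by
    rw [hr]
    exact one_div_le_one_div_of_le (by norm_num) hL4
  have hwq : w ≤ 1 / 4 := by
    rw [hw]
    exact one_div_le_one_div_of_le (by norm_num) hL
  -- the three scales
  have key : ∀ T' : ℝ, (T' = T / 2 ∨ T' = T ∨ T' = 2 * T) → 0 < T' ∧ T' ≤ 2 * T ∧ T / 2 ≤ T' ∧ Real.log T / 2 ≤ Real.log T' ∧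
      Real.log T' ≤ Real.log (4 * T) ∧ (N : ℝ) ≤ T' ^ θ ∧ ∀ b : ℕ → ℂ,
      (∀ K : ℕ, ∫ t in {t : ℝ | T' ≤ t ∧ t ≤ 2 * T' ∧ K ≤ nz t (1 / Real.log T')}, ‖dp N b t‖ ^ 2 ≤
        C * Real.exp (-(c * K)) * T' * N2 N b) := by
    intro T' hT'
    have k1 : 0 < T' ∧ T' ≤ 2 * T ∧ T / 2 ≤ T' ∧ Real.log T / 2 ≤ Real.log T' ∧ Real.log T' ≤ Real.log (4 * T) := by
      rcases hT' with h | h | h
      · rw [h, el1, el3]
        exact ⟨by linarith, by linarith, by linarith, by linarith, by linarith⟩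
      · rw [h, el3]
        exact ⟨by linarith, by linarith, by linarith, by linarith, by linarith⟩
      · rw [h, el2, el3]
        exact ⟨by linarith, by linarith, by linarith, by linarith, by linarith⟩
    obtain ⟨k2, k3, k4, k5, k6⟩ := k1
    have k7 : (N : ℝ) ≤ T' ^ θ := by
      refine hN.trans ?_
      rw [Real.rpow_def_of_pos hT0, Real.rpow_def_of_pos k2]
      refine Real.exp_le_exp.2 ?_
      nlinarith
    refine ⟨k2, k3, k4, k5, k6, k7, ?_⟩
    rcases hT' with h | h | h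
    · rw [h] at k7 ⊢
      exact fun b => (h1 N k7 b).2
    · rw [h] at k7 ⊢
      exact fun b => (h2 N k7 b).2
    · rw [h] at k7 ⊢
      exact fun b => (h3 N k7 b).2
  have hn : ((⌈w / r⌉₊ + 1 : ℕ) : ℝ) ≤ 4 := by
    have h5 : (⌈w / r⌉₊ : ℝ) < w / r + 1 := Nat.ceil_lt_add_one (by positivity)
    have h6 : w / r ≤ 2 := by
      rw [hw, hr, div_div_eq_mul_div, div_one, div_mul_eq_mul_div, div_le_iff₀ (by linarith), el3]
      nlinarith
    push_cast
    linarith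
  have hV : ∀ b : ℕ → ℂ, Continuous fun t : ℝ => ‖dp N b t‖ ^ 2 := fun b => V_cont hD N b
  have hNb : ∀ b : ℕ → ℂ, 0 ≤ N2 N b := fun b => N2_nonneg N b
  have hrT : ∀ T' : ℝ, (T' = T / 2 ∨ T' = T ∨ T' = 2 * T) → r ≤ 1 / Real.log T' := by
    intro T' hT'
    obtain ⟨k2, k3, k4, k5, k6, k7, k8⟩ := key T' hT'
    exact one_div_le_one_div_of_le (by linarith) k6
  have mn : Measurable (fun t => (nz t r : ℝ)) := by
    refine measurable_from_nat.comp (measurable_of_Ici fun k => ?_)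
    exact hZ.2.1 r k
  -- one window
  have h5 : ∀ T' : ℝ, (T' = T / 2 ∨ T' = T ∨ T' = 2 * T) → ∀ b : ℕ → ℂ,
      ∫ s in T'..(2 * T'), (4 * (nz s r : ℝ) ^ 2) * ‖dp N b s‖ ^ 2 ≤
        (64 * (C / c ^ 2) * T) * N2 N b := by
    intro T' hT' b
    obtain ⟨k2, k3, k4, k5, k6, k7, k8⟩ := key T' hT'
    have h7 : ∀ K : ℕ, ∫ t in T'..(2 * T'), ({t : ℝ | K ≤ nz t r}).indicator (1 : ℝ → ℝ) t *
        ‖dp N b t‖ ^ 2 ≤ C * Real.exp (-(c * K)) * T' * N2 N b := by
      intro K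
      have mK : MeasurableSet {t : ℝ | K ≤ nz t r} := hZ.2.1 r K
      have e3 : ∫ t in T'..(2 * T'), ({t : ℝ | K ≤ nz t r}).indicator (1 : ℝ → ℝ) t *
          ‖dp N b t‖ ^ 2 =
          ∫ t in {t : ℝ | T' ≤ t ∧ t ≤ 2 * T' ∧ t ∈ {t : ℝ | K ≤ nz t r}}, ‖dp N b t‖ ^ 2 :=
        (set_int k2.le mK _).symm
      rw [e3]
      refine le_trans ?_ (k8 b K)
      refine setIntegral_mono_set (((hV b).integrableOn_Icc (a := T') (b := 2 * T')).mono_set
        (fun t ht => ⟨ht.1, ht.2.1⟩))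
        (Eventually.of_forall fun t => sq_nonneg _) (LE.le.eventuallyLE ?_)
      rintro t ⟨t1, t2, t3⟩
      exact ⟨t1, t2, le_trans t3 (nz_mono hZ (Zw_sub (by simpa using hrT T' hT')))⟩
    have h8 := cake2 hZ (r := r) k2 hC hc (hV b) (fun s => sq_nonneg _) (hNb b) (nz 0 (4 * T + r))
      (fun s s1 s2 => nz_mono hZ (Zw_sub (by rw [sub_zero, abs_of_nonneg (by linarith)]; linarith)))
      h7
    have e4 : ∫ s in T'..(2 * T'), (4 * (nz s r : ℝ) ^ 2) * ‖dp N b s‖ ^ 2 =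
        4 * ∫ s in T'..(2 * T'), (nz s r : ℝ) ^ 2 * ‖dp N b s‖ ^ 2 := by
      rw [← intervalIntegral.integral_const_mul]
      refine intervalIntegral.integral_congr fun s _ => ?_
      change (4 * (nz s r : ℝ) ^ 2) * ‖dp N b s‖ ^ 2 = 4 * ((nz s r : ℝ) ^ 2 * ‖dp N b s‖ ^ 2)
      ring
    rw [e4]
    have hN2 := hNb b
    calc 4 * ∫ s in T'..(2 * T'), (nz s r : ℝ) ^ 2 * ‖dp N b s‖ ^ 2
        ≤ 4 * (8 * (C / c ^ 2) * T' * N2 N b) := mul_le_mul_of_nonneg_left h8 (by norm_num)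
      _ ≤ 4 * (8 * (C / c ^ 2) * (2 * T) * N2 N b) := by gcongr
      _ = (64 * (C / c ^ 2) * T) * N2 N b := by ring
  have hxj : ∀ j ∈ Finset.range (⌈w / r⌉₊ + 1), |(X + (-w + r + 2 * r * j) : ℝ)| ≤ T / 2 := by
    intro j hj
    have h6 := off_bd hr0 hw0 hj
    refine (abs_add_le _ _).trans ?_
    linarith
  have h11 : ∀ t, T ≤ t → t ≤ 2 * T → (nz (t + X) w : ℝ) ^ 2 ≤
      ∑ j ∈ Finset.range (⌈w / r⌉₊ + 1), 4 * (nz (t + (X + (-w + r + 2 * r * j))) r : ℝ) ^ 2 := by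
    intro t _ _
    have h6 := nz_cover hZ (t := t + X) hr0 hw0
    have h7 : (nz (t + X) w : ℝ) ≤ ∑ j ∈ Finset.range (⌈w / r⌉₊ + 1),
        (nz (t + (X + (-w + r + 2 * r * j))) r : ℝ) := by
      refine le_trans (b := ((∑ j ∈ Finset.range (⌈w / r⌉₊ + 1),
        nz (t + X + (-w + r + 2 * r * j)) r : ℕ) : ℝ)) (by exact_mod_cast h6) (le_of_eq ?_)
      push_cast
      refine Finset.sum_congr rfl fun j _ => ?_
      rw [add_assoc]
    have h8 : (nz (t + X) w : ℝ) ^ 2 ≤ (∑ j ∈ Finset.range (⌈w / r⌉₊ + 1),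
        (nz (t + (X + (-w + r + 2 * r * j))) r : ℝ)) ^ 2 :=
      pow_le_pow_left₀ (Nat.cast_nonneg _) h7 2
    refine h8.trans ((sq_sum_le_card_mul_sum_sq).trans ?_)
    rw [Finset.card_range, ← Finset.mul_sum]
    exact mul_le_mul_of_nonneg_right hn (Finset.sum_nonneg fun j _ => sq_nonneg _)
  have h13 := comb' hD hT0 ((measurable_const.mul (mn.pow_const 2)) : Measurable
    fun s => 4 * (nz s r : ℝ) ^ 2)
    (fun s => mul_nonneg (by norm_num) (sq_nonneg _))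
    (M := 4 * (nz 0 (4 * T + r) : ℝ) ^ 2)
    (fun s s1 s2 => by
      have h6 : (nz s r : ℝ) ≤ nz 0 (4 * T + r) := by
        have := nz_mono hZ (Zw_sub (t := s) (r := r) (t' := 0) (r' := 4 * T + r)
          (by rw [sub_zero, abs_of_nonneg (by linarith)]; linarith))
        exact_mod_cast this
      have h8 : (0 : ℝ) ≤ nz s r := Nat.cast_nonneg _
      exact mul_le_mul_of_nonneg_left (pow_le_pow_left₀ h8 h6 2) (by norm_num)) N
    (by positivity) h5 b hxj h11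
  refine h13.trans ?_
  have hN2 := hNb b
  calc ((⌈w / r⌉₊ + 1 : ℕ) : ℝ) * (3 * (64 * (C / c ^ 2) * T) * N2 N b)
      ≤ 4 * (3 * (64 * (C / c ^ 2) * T) * N2 N b) :=
        mul_le_mul_of_nonneg_right hn (by positivity)
    _ = 768 * (C / c ^ 2) * T * N2 N b := by ring

end Pool.Agent.Q153.UM
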