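import Pool.Agent.Q97.UM.Stm

set_option autoImplicit false

/-! Project UM (helper97), job EXP (helper153): the gcd form as a mean over smooth integers. -/

namespace Pool.Agent.Q153.UM

open Filter Topology MeasureTheory Complex
open Pool.Agent.Q97.UM

noncomputable section

/-- the homomorphism n to 1/n -/
def inv1 : ℕ →* ℝ where
  toFun n := (n : ℝ)⁻¹
  map_one' := by simp
  map_mul' m n := by push_cast; rw [mul_inv]

theorem fac_pos {X : ℕ} : ∀ p ∈ X.primesBelow, (1 - 1 / (p : ℝ)) ≠ 0 := by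
  intro p hp
  have h2 := (Nat.prime_of_mem_primesBelow hp).two_le
  have h2' : (2 : ℝ) ≤ p := by exact_mod_cast h2
  have : 1 / (p : ℝ) ≤ 1 / 2 := one_div_le_one_div_of_le (by norm_num) h2'
  linarith

theorem hs0 (X : ℕ) : HasSum (fun m : Nat.smoothNumbers X => (m : ℝ)⁻¹)
    (∏ p ∈ X.primesBelow, (1 - 1 / (p : ℝ)))⁻¹ := by
  have h := (EulerProduct.summable_and_hasSum_smoothNumbers_prod_primesBelow_geometric
    (f := inv1) (by
      intro p hp
      have h2 := hp.two_le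
      have h2' : (2 : ℝ) ≤ p := by exact_mod_cast h2
      change ‖(p : ℝ)⁻¹‖ < 1
      rw [norm_inv, Real.norm_natCast]
      exact inv_lt_one_of_one_lt₀ (by linarith)) X).2
  rw [← Finset.prod_inv_distrib]
  simpa [inv1, one_div] using h

theorem hs1 (X d : ℕ) (hd : d ∈ Nat.smoothNumbers X) :
    HasSum (fun n : Nat.smoothNumbers X => if d ∣ (n : ℕ) then ((n : ℕ) : ℝ)⁻¹ else 0)
    ((d : ℝ)⁻¹ * (∏ p ∈ X.primesBelow, (1 - 1 / (p : ℝ)))⁻¹) := by
  have hd0 : d ≠ 0 := Nat.ne_zero_of_mem_smoothNumbers hd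
  let g : Nat.smoothNumbers X → Nat.smoothNumbers X := fun m =>
    ⟨d * (m : ℕ), Nat.mul_mem_smoothNumbers hd m.2⟩
  have hg : Function.Injective g := by
    intro a b hab
    have h1 : d * (a : ℕ) = d * (b : ℕ) := congrArg Subtype.val hab
    exact Subtype.ext (Nat.eq_of_mul_eq_mul_left (Nat.pos_of_ne_zero hd0) h1)
  rw [← hg.hasSum_iff]
  · have h := (hs0 X).mul_left ((d : ℝ)⁻¹)
    have e : ((fun n : Nat.smoothNumbers X => if d ∣ (n : ℕ) then ((n : ℕ) : ℝ)⁻¹ else 0) ∘ g) =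
        fun m : Nat.smoothNumbers X => (d : ℝ)⁻¹ * ((m : ℕ) : ℝ)⁻¹ := by
      funext m
      have e : ((fun n : Nat.smoothNumbers X => if d ∣ (n : ℕ) then ((n : ℕ) : ℝ)⁻¹ else 0) ∘ g) m =
        if d ∣ d * (m : ℕ) then ((d * (m : ℕ) : ℕ) : ℝ)⁻¹ else 0 := rfl
      rw [e, if_pos (dvd_mul_right d m), Nat.cast_mul, mul_inv]
    rw [e]
    exact h
  · intro n hn
    rw [if_neg]
    intro hdn
    apply hn
    obtain ⟨m, hm⟩ := hdn
    refine ⟨⟨m, Nat.mem_smoothNumbers_of_dvd n.2 ⟨d, by rw [hm]; ring⟩⟩, ?_⟩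
    exact Subtype.ext hm.symm

theorem sum_div {M : ℕ} {c : ℕ → ℂ} (hc : ∀ n, c n ≠ 0 → 1 ≤ n ∧ n ≤ M) {n : ℕ} (hn : n ≠ 0) :
    ∑ h ∈ n.divisors, c h = ∑ h ∈ Finset.Icc 1 M, if h ∣ n then c h else 0 := by
  rw [← Finset.sum_filter]
  symm
  apply Finset.sum_subset_zero_on_sdiff
  · intro h hh
    rw [Finset.mem_filter] at hh
    exact Nat.mem_divisors.mpr ⟨hh.2, hn⟩
  · intro h hh
    rw [Finset.mem_sdiff, Finset.mem_filter, Finset.mem_Icc, Nat.mem_divisors] at hh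
    by_contra h0
    exact hh.2 ⟨hc h h0, hh.1.1⟩
  · intro h _
    rfl

theorem t_EXP : S_EXP := by
  intro X M c hc
  set P : ℝ := ∏ p ∈ X.primesBelow, (1 - 1 / (p : ℝ)) with hP
  have hP0 : P ≠ 0 := Finset.prod_ne_zero_iff.mpr fac_pos
  have hc' : ∀ n, c n ≠ 0 → 1 ≤ n ∧ n ≤ M := fun n hn => ⟨(hc n hn).1, (hc n hn).2.1⟩
  -- the complex sum
  have key : HasSum (fun n : Nat.smoothNumbers X =>
      ((P * (‖∑ h ∈ (n : ℕ).divisors, c h‖ ^ 2 / (n : ℕ)) : ℝ) : ℂ)) (QF M c) := by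
    have hpair : ∀ h ∈ Finset.Icc 1 M, ∀ k ∈ Finset.Icc 1 M,
        HasSum (fun n : Nat.smoothNumbers X => c h * (starRingEnd ℂ) (c k) *
          ((P * (if Nat.lcm h k ∣ (n : ℕ) then ((n : ℕ) : ℝ)⁻¹ else 0) : ℝ) : ℂ))
          (c h * (starRingEnd ℂ) (c k) * ((1 / (Nat.lcm h k : ℝ) : ℝ) : ℂ)) := by
      intro h _ k _
      by_cases h0 : c h = 0
      · simp only [h0, zero_mul]
        exact hasSum_zero
      by_cases k0 : c k = 0
      · simp only [k0, map_zero, mul_zero, zero_mul]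
        exact hasSum_zero
      have hs : Nat.lcm h k ∈ Nat.smoothNumbers X := by
        rw [Nat.mem_smoothNumbers']
        intro p hp hpd
        rcases (Nat.Prime.dvd_lcm hp).mp hpd with h1 | h1
        · exact Nat.mem_smoothNumbers'.mp (hc h h0).2.2 p hp h1
        · exact Nat.mem_smoothNumbers'.mp (hc k k0).2.2 p hp h1
      have h1 := (hs1 X _ hs).mul_left P
      have e : P * ((Nat.lcm h k : ℝ)⁻¹ * P⁻¹) = 1 / (Nat.lcm h k : ℝ) := by
        field_simp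
      rw [← hP, e] at h1
      exact (Complex.hasSum_ofReal.mpr h1).mul_left _
    have h2 := hasSum_sum fun h hh => hasSum_sum fun k hk => hpair h hh k hk
    unfold QF
    convert h2 using 2 with n
    have hn0 : (n : ℕ) ≠ 0 := Nat.ne_zero_of_mem_smoothNumbers n.2
    rw [sum_div hc' hn0]
    set S : ℂ := ∑ h ∈ Finset.Icc 1 M, if h ∣ (n : ℕ) then c h else 0 with hS
    have e1 : ((‖S‖ ^ 2 : ℝ) : ℂ) = S * (starRingEnd ℂ) S := by
      rw [Complex.mul_conj, Complex.normSq_eq_norm_sq]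
    have e2 : ((P * (‖S‖ ^ 2 / ((n : ℕ) : ℝ)) : ℝ) : ℂ) =
        (S * (starRingEnd ℂ) S) * ((P * ((n : ℕ) : ℝ)⁻¹ : ℝ) : ℂ) := by
      rw [← e1]
      push_cast
      ring
    rw [e2, hS, map_sum, Finset.sum_mul_sum, Finset.sum_mul]
    refine Finset.sum_congr rfl fun h _ => ?_
    rw [Finset.sum_mul]
    refine Finset.sum_congr rfl fun k _ => ?_
    by_cases a : h ∣ (n : ℕ) <;> by_cases b : k ∣ (n : ℕ)
    · rw [if_pos a, if_pos b, if_pos (Nat.lcm_dvd a b)]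
    · rw [if_neg b, if_neg (fun hl => b ((Nat.dvd_lcm_right h k).trans hl))]
      simp
    · rw [if_neg a, if_neg (fun hl => a ((Nat.dvd_lcm_left h k).trans hl))]
      simp
    · rw [if_neg a, if_neg (fun hl => a ((Nat.dvd_lcm_left h k).trans hl))]
      simp
  have hri := Complex.hasSum_iff _ _ |>.mp key
  refine ⟨?_, ?_⟩
  · simpa only [Complex.ofReal_re] using hri.1
  · have h3 := hri.2
    simp only [Complex.ofReal_im] at h3
    exact h3.unique hasSum_zero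

end

end Pool.Agent.Q153.UM
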