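import Pool.Agent.Q97.UM.Stm7

/-!
# Project UM3 (helper97), job PSE (helper153): the weighted pair sum
-/

set_option autoImplicit false

namespace Pool.Agent.Q153.UM

open Filter Topology MeasureTheory Complex
open Pool.Agent.Q97.UM

lemma mem_ZT {T : ℝ} {s : ℂ} (hs : s ∈ ZT T) : 0 < s.re ∧ s.re < 1 ∧ riemannZeta s = 0 := by
  unfold ZT H370.Zf at hs
  split_ifs at hs with h
  · rw [Set.Finite.mem_toFinset] at hs
    exact ⟨hs.1, hs.2.1, hs.2.2.2.2⟩
  · exact absurd hs (Finset.notMem_empty s)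

lemma zz_eq (hRH : RHz) {T : ℝ} {s : ℂ} (hs : s ∈ ZT T) : H370.zz s = (s.im : ℂ) := by
  obtain ⟨h1, h2, h3⟩ := mem_ZT hs
  have h4 := hRH s h3 h1 h2
  unfold H370.zz
  have h5 : s = (1 / 2 : ℂ) + s.im * I := by
    refine Complex.ext ?_ ?_
    · simp [h4]
    · simp
  rw [h5]
  have h6 : ((1 / 2 : ℂ) + (s.im : ℂ) * I).im = s.im := by simp
  rw [h6]
  have h7 : -I * ((1 / 2 : ℂ) + s.im * I - 1 / 2) = -(I * I) * s.im := by ring
  rw [h7, I_mul_I, neg_neg, one_mul]

lemma Zt_eq (hRH : RHz) {δ H C : ℝ} {K : ℕ} {w : ℝ → ℝ} (hw : OmW δ H C K w) (T u t : ℝ) :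
    Zt w T u t = ∑ s ∈ ZT T, (((mz s : ℝ) * qr w T t s : ℝ) : ℂ) * cexp (((u * s.im : ℝ) : ℂ) * I) := by
  unfold Zt
  refine Finset.sum_congr rfl fun s hs => ?_
  rw [zz_eq hRH hs]
  have h1 : om w (Real.log T * ((s.im : ℂ) - t)) =
      ((om w ((Real.log T * (s.im - t) : ℝ) : ℂ)).re : ℂ) := by
    have h2 : ((Real.log T : ℂ) * ((s.im : ℂ) - t)) = ((Real.log T * (s.im - t) : ℝ) : ℂ) := by
      push_cast
      ring
    rw [h2]
    refine Complex.ext ?_ ?_
    · simp
    · rw [(hw.unit _).1]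
      simp
  rw [h1]
  have h3 : cexp (-((s.im : ℂ) - t) ^ 2 / 2) = ((Real.exp (-(s.im - t) ^ 2 / 2) : ℝ) : ℂ) := by
    push_cast
    ring_nf
  rw [h3]
  have h4 : cexp (I * u * (s.im : ℂ)) = cexp (((u * s.im : ℝ) : ℂ) * I) := by
    congr 1
    push_cast
    ring
  rw [h4]
  unfold qr
  push_cast
  ring

lemma normSq_sum {ι : Type*} (S : Finset ι) (a θ : ι → ℝ) :
    ‖∑ s ∈ S, ((a s : ℝ) : ℂ) * cexp ((θ s : ℂ) * I)‖ ^ 2 =
      ∑ s ∈ S, ∑ s' ∈ S, a s * a s' * Real.cos (θ s - θ s') := by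
  have h0 : ∀ s, ((a s : ℝ) : ℂ) * cexp ((θ s : ℂ) * I) =
      ((a s * Real.cos (θ s) : ℝ) : ℂ) + ((a s * Real.sin (θ s) : ℝ) : ℂ) * I := by
    intro s
    rw [Complex.exp_mul_I]
    push_cast
    ring
  have hre : (∑ s ∈ S, ((a s : ℝ) : ℂ) * cexp ((θ s : ℂ) * I)).re = ∑ s ∈ S, a s * Real.cos (θ s) := by
    rw [Complex.re_sum]
    refine Finset.sum_congr rfl fun s _ => ?_
    rw [h0, Complex.add_re, Complex.ofReal_re, Complex.re_ofReal_mul, I_re, mul_zero, add_zero]
  have him : (∑ s ∈ S, ((a s : ℝ) : ℂ) * cexp ((θ s : ℂ) * I)).im = ∑ s ∈ S, a s * Real.sin (θ s) := by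
    rw [Complex.im_sum]
    refine Finset.sum_congr rfl fun s _ => ?_
    rw [h0, Complex.add_im, Complex.ofReal_im, Complex.im_ofReal_mul, I_im, mul_one, zero_add]
  rw [Complex.sq_norm, Complex.normSq_apply, hre, him, Finset.sum_mul_sum, Finset.sum_mul_sum,
    ← Finset.sum_add_distrib]
  refine Finset.sum_congr rfl fun s _ => ?_
  rw [← Finset.sum_add_distrib]
  refine Finset.sum_congr rfl fun s' _ => ?_
  rw [Real.cos_sub]
  ring

lemma R_cont {R : ℝ → ℝ} {D M : ℝ} (hR : Tst R D M) : Continuous R := by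
  rw [Metric.continuous_iff]
  intro x ε hε
  refine ⟨ε / (|D| + 1), by positivity, fun y hy => ?_⟩
  rw [Real.dist_eq] at hy ⊢
  have h1 := hR.lip y x
  have h2 : D * |y - x| ≤ |D| * |y - x| := mul_le_mul_of_nonneg_right (le_abs_self D) (abs_nonneg _)
  have h3 : |D| * |y - x| ≤ (|D| + 1) * |y - x| :=
    mul_le_mul_of_nonneg_right (by linarith) (abs_nonneg _)
  have h4 : (|D| + 1) * |y - x| < ε := by
    rw [lt_div_iff₀ (by positivity)] at hy
    linarith
  linarith

lemma fR_half {R : ℝ → ℝ} {D M : ℝ} (hR : Tst R D M) (x : ℝ) :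
    fR R x = 2 * ∫ α in (0 : ℝ)..1, R α * Real.cos (α * x) := by
  have hc : Continuous fun α => R α * Real.cos (α * x) :=
    (R_cont hR).mul (Real.continuous_cos.comp (continuous_id.mul continuous_const))
  unfold fR
  rw [← intervalIntegral.integral_add_adjacent_intervals (b := (0 : ℝ))
    (hc.intervalIntegrable _ _) (hc.intervalIntegrable _ _)]
  have h1 : ∫ α in (-1 : ℝ)..0, R α * Real.cos (α * x) = ∫ α in (0 : ℝ)..1, R α * Real.cos (α * x) := by
    have h2 := intervalIntegral.integral_comp_neg (a := (0 : ℝ)) (b := 1)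
      (fun α => R α * Real.cos (α * x))
    rw [neg_zero] at h2
    rw [← h2]
    refine intervalIntegral.integral_congr fun α _ => ?_
    change R (-α) * Real.cos (-α * x) = R α * Real.cos (α * x)
    rw [hR.even, neg_mul, Real.cos_neg]
  rw [h1]
  ring

/-- **PSE.** -/
theorem t_PSE : S_PSE := by
  intro hRH R D M hR δ H C K w hw T lam t _
  have h1 : ∀ α : ℝ, R α * ‖Zt w T (lam * Real.log T * α) t‖ ^ 2 =
      ∑ s ∈ ZT T, ∑ s' ∈ ZT T, (mz s : ℝ) * (mz s' : ℝ) * (qr w T t s * qr w T t s') *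
        (R α * Real.cos (α * (lam * Real.log T * (s.im - s'.im)))) := by
    intro α
    rw [Zt_eq hRH hw, normSq_sum, Finset.mul_sum]
    refine Finset.sum_congr rfl fun s _ => ?_
    rw [Finset.mul_sum]
    refine Finset.sum_congr rfl fun s' _ => ?_
    have h2 : lam * Real.log T * α * s.im - lam * Real.log T * α * s'.im =
        α * (lam * Real.log T * (s.im - s'.im)) := by ring
    rw [h2]
    ring
  have hint : ∀ s s' : ℂ, IntervalIntegrable (fun α : ℝ =>
      (mz s : ℝ) * (mz s' : ℝ) * (qr w T t s * qr w T t s') *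
        (R α * Real.cos (α * (lam * Real.log T * (s.im - s'.im))))) volume 0 1 := by
    intro s s'
    refine Continuous.intervalIntegrable ?_ _ _
    exact continuous_const.mul ((R_cont hR).mul (Real.continuous_cos.comp
      (continuous_id.mul continuous_const)))
  rw [intervalIntegral.integral_congr (g := fun α : ℝ => ∑ s ∈ ZT T, ∑ s' ∈ ZT T,
    (mz s : ℝ) * (mz s' : ℝ) * (qr w T t s * qr w T t s') *
        (R α * Real.cos (α * (lam * Real.log T * (s.im - s'.im))))) fun α _ => h1 α]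
  rw [intervalIntegral.integral_finsetSum, Finset.mul_sum]
  · refine Finset.sum_congr rfl fun s _ => ?_
    rw [intervalIntegral.integral_finsetSum fun s' _ => hint s s', Finset.mul_sum]
    refine Finset.sum_congr rfl fun s' _ => ?_
    rw [intervalIntegral.integral_const_mul, fR_half hR]
    ring
  · intro s _
    have h3 := IntervalIntegrable.sum (ZT T) (f := fun s' => fun α : ℝ =>
      (mz s : ℝ) * (mz s' : ℝ) * (qr w T t s * qr w T t s') *
        (R α * Real.cos (α * (lam * Real.log T * (s.im - s'.im))))) fun s' _ => hint s s'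
    refine h3.congr fun α _ => ?_
    simp only [Finset.sum_apply]

end Pool.Agent.Q153.UM
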